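import Pool.Agent.Helper61.FN.Goals

/-!
# Project FN, packet FN-DER: the derivation `t d/dt`

For `t` transcendental over `F` (characteristic `0`) and `K` finite over `F(t)` the field `K` is formally etale over the
polynomial ring `F[X]` (`X ↦ t`), so the derivation of `F[X]` with values in `K` and `X ↦ t` extends to `K`.
-/

set_option autoImplicit false

namespace Pool.Agent.Helper79.FN

open Polynomial TensorProduct
open scoped IntermediateField.algebraAdjoinAdjoin

theorem goalDER : Pool.Agent.Helper61.FN.G_DER := by
  intro F K _ _ _ _ t ht hfin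
  classical
  let A := Algebra.adjoin F {t}
  have htA : t ∈ A := Algebra.subset_adjoin rfl
  let tA : A := ⟨t, htA⟩
  let algK : Algebra F[X] K := (aeval t).toAlgebra
  let algA : Algebra F[X] A := (aeval tA).toAlgebra
  have hmapK : ∀ p : F[X], algebraMap F[X] K p = aeval t p := fun p => rfl
  have hmapA : ∀ p : F[X], algebraMap F[X] A p = aeval tA p := fun p => rfl
  have hval : ∀ p : F[X], ((aeval tA p : A) : K) = aeval t p := by
    intro p
    exact (Polynomial.aeval_algHom_apply A.val tA p).symm
  have tow1 : IsScalarTower F F[X] K := by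
    apply IsScalarTower.of_algebraMap_eq
    intro x
    rw [hmapK, Polynomial.algebraMap_apply, aeval_C]
    rfl
  have tow2 : IsScalarTower F[X] A K := by
    apply IsScalarTower.of_algebraMap_eq
    intro p
    rw [hmapK, hmapA, ← hval p]
    rfl
  have et1 : Algebra.FormallyEtale F[X] A := by
    apply Algebra.FormallyEtale.of_equiv (AlgEquiv.ofBijective (Algebra.ofId F[X] A) ⟨?_, ?_⟩)
    · intro p q hpq
      have h1 : aeval tA p = aeval tA q := hpq
      have h2 : aeval t p = aeval t q := by rw [← hval p, ← hval q, h1]
      exact (transcendental_iff_injective.mp ht) h2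
    · intro y
      have hy : (y : K) ∈ Algebra.adjoin F {t} := y.2
      rw [Algebra.adjoin_singleton_eq_range_aeval] at hy
      obtain ⟨p, hp⟩ := hy
      refine ⟨p, ?_⟩
      apply Subtype.ext
      have h3 : ((aeval tA p : A) : K) = (y : K) := by rw [hval p]; exact hp
      exact h3
  have et2 : Algebra.FormallyEtale A (IntermediateField.adjoin F {t}) :=
    Algebra.FormallyEtale.of_isLocalization (nonZeroDivisors A)
  have hsep : Algebra.IsSeparable (IntermediateField.adjoin F {t}) K := inferInstance
  have et3 : Algebra.FormallyEtale (IntermediateField.adjoin F {t}) K :=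
    Algebra.FormallyEtale.of_isSeparable _ _
  have et4 : Algebra.FormallyEtale A K :=
    Algebra.FormallyEtale.comp A (IntermediateField.adjoin F {t}) K
  have et5 : Algebra.FormallyEtale F[X] K := Algebra.FormallyEtale.comp F[X] A K
  let e := KaehlerDifferential.tensorKaehlerEquivOfFormallyEtale F F[X] K
  let d : Derivation F F[X] K := Polynomial.mkDerivation F t
  let ℓ := d.liftKaehlerDifferential
  let L := LinearMap.liftBaseChange K ℓ
  refine ⟨(L.comp e.symm.toLinearMap).compDer (KaehlerDifferential.D F K), ?_⟩
  have hX : algebraMap F[X] K X = t := by rw [hmapK, aeval_X]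
  have h5 : e.symm (KaehlerDifferential.D F K t) = 1 ⊗ₜ KaehlerDifferential.D F F[X] X := by
    have := KaehlerDifferential.tensorKaehlerEquivOfFormallyEtale_symm_D_algebraMap F F[X] K X
    rw [hX] at this
    exact this
  change L (e.symm (KaehlerDifferential.D F K t)) = t
  rw [h5]
  simp [L, ℓ, d]

end Pool.Agent.Helper79.FN
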